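import Pool.Agent.Helper12.Basics

/-!
Packet 116 (MP_ecbc8a_al, S03471): general lemmas on locally finite groups, lifting of finite
2-subgroups, radicals, Sparse and quotients.
-/

set_option autoImplicit false

open Pool.Agent.Helper12.TwoLen

namespace Pool.Agent.Helper91.SP

universe u v

section countable

variable {G : Type*} [Group G]

theorem countable_closure {S : Set G} (hS : S.Countable) : Countable (Subgroup.closure S) := by
  have : Countable S := hS.to_subtype
  have h1 : (FreeGroup.lift (Subtype.val : S → G)).range = Subgroup.closure S := by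
    rw [FreeGroup.range_lift_eq_closure]; simp
  rw [← h1]
  have : Countable (FreeGroup S) := by
    unfold FreeGroup
    infer_instance
  exact (FreeGroup.lift (Subtype.val : S → G)).rangeRestrict_surjective.countable

end countable

section locfin

variable {G : Type*} {G' : Type*} [Group G] [Group G']

theorem fg_map {S : Subgroup G} (hS : S.FG) (f : G →* G') : (S.map f).FG := by
  classical
  obtain ⟨s, rfl⟩ := hS
  exact ⟨s.image f, by rw [MonoidHom.map_closure, Finset.coe_image]⟩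

theorem locfin_subgroup (hG : LocFin G) (H : Subgroup G) : LocFin H := by
  intro S hS
  have h1 : (S.map H.subtype).FG := fg_map hS _
  have := hG _ h1
  exact Finite.of_injective (S.equivMapOfInjective H.subtype H.subtype_injective)
    (S.equivMapOfInjective H.subtype H.subtype_injective).injective

theorem locfin_surj (hG : LocFin G) (f : G →* G') (hf : Function.Surjective f) : LocFin G' := by
  classical
  rintro S ⟨s, rfl⟩
  choose g hg using hf
  have h1 : Finite (Subgroup.closure (s.image g : Set G)) := hG _ ⟨s.image g, rfl⟩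
  have h2 : (Subgroup.closure (s.image g : Set G)).map f = Subgroup.closure (s : Set G') := by
    rw [MonoidHom.map_closure]
    congr 1
    ext y
    simp only [Finset.coe_image, Set.mem_image, Finset.mem_coe, exists_exists_and_eq_and, hg]
    simp
  rw [← h2]
  exact Finite.of_surjective _ (f.subgroupMap_surjective (Subgroup.closure (s.image g : Set G)))

theorem fg_of_finite (H : Subgroup G) [Finite H] : H.FG := by
  classical
  refine ⟨(Set.toFinite (H : Set G)).toFinset, ?_⟩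
  simp

theorem finite_sup (hG : LocFin G) {A B : Subgroup G} (hA : Finite A) (hB : Finite B) :
    Finite (A ⊔ B : Subgroup G) := hG _ ((fg_of_finite A).sup (fg_of_finite B))

theorem E2_of_inj {f : G →* G'} (hf : Function.Injective f) {x : G} (h : E2 (f x)) : E2 x := by
  obtain ⟨k, hk⟩ := h
  exact ⟨k, hf (by rw [map_pow, hk, map_one])⟩

theorem EO_of_inj {f : G →* G'} (hf : Function.Injective f) {x : G} (h : EO (f x)) : EO x := by
  obtain ⟨k, ho, hk⟩ := h
  exact ⟨k, ho, hf (by rw [map_pow, hk, map_one])⟩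

theorem Is2_of_map_inj {f : G →* G'} (hf : Function.Injective f) {H : Subgroup G}
    (h : Is2 (H.map f)) : Is2 H := fun x hx => E2_of_inj hf (h _ ⟨x, hx, rfl⟩)

/-- the lifting lemma -/
theorem exists_lift (hG : LocFin G) (f : G →* G') (H A : Subgroup G) (P : Subgroup G')
    (hPf : Finite P) (hP : Is2 P) (hPH : P ≤ H.map f) (hAH : A ≤ H) (hAf : Finite A)
    (hA : Is2 A) (hAP : A.map f ≤ P) :
    ∃ S : Subgroup G, S ≤ H ∧ Finite S ∧ Is2 S ∧ A ≤ S ∧ S.map f = P := by
  classical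
  have h1 : ∀ y : P, ∃ x ∈ H, f x = y := fun y => hPH y.2
  choose g hgH hg using h1
  set F : Subgroup G := A ⊔ Subgroup.closure (Set.range g) with hF
  have hFf : Finite F := by
    refine hG _ ((fg_of_finite A).sup ?_)
    exact ⟨(Set.finite_range g).toFinset, by simp⟩
  have hFH : F ≤ H := sup_le hAH ((Subgroup.closure_le _).2 (by rintro _ ⟨y, rfl⟩; exact hgH y))
  have hFP : F.map f = P := by
    apply le_antisymm
    · rw [hF, Subgroup.map_sup, MonoidHom.map_closure]
      refine sup_le hAP ((Subgroup.closure_le _).2 ?_)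
      rintro _ ⟨_, ⟨y, rfl⟩, rfl⟩
      rw [hg]; exact y.2
    · intro y hy
      exact ⟨g ⟨y, hy⟩, hF ▸ (le_sup_right (a := A) (Subgroup.subset_closure ⟨_, rfl⟩)),
        hg ⟨y, hy⟩⟩
  have : Fact (Nat.Prime 2) := ⟨Nat.prime_two⟩
  have hAF : A ≤ F := le_sup_left
  have hA2 : IsPGroup 2 (A.subgroupOf F) := by
    rw [← is2_iff_isPGroup]
    intro x hx
    exact E2_of_inj F.subtype_injective (hA _ hx)
  obtain ⟨S, hS⟩ := hA2.exists_le_sylow
  have hφ0 : ∀ x : F, (f.comp F.subtype) x ∈ P := by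
    intro x
    rw [← hFP]
    exact ⟨x, x.2, rfl⟩
  let φ : F →* P := (f.comp F.subtype).codRestrict P hφ0
  have hφ : Function.Surjective φ := by
    intro y
    have : (y : G') ∈ F.map f := by rw [hFP]; exact y.2
    obtain ⟨x, hx, hxy⟩ := this
    exact ⟨⟨x, hx⟩, Subtype.ext hxy⟩
  have hP2 : IsPGroup 2 (⊤ : Subgroup P) := by
    rw [← is2_iff_isPGroup]
    intro x _
    exact E2_of_inj P.subtype_injective (hP _ x.2)
  have hT : (S.mapSurjective hφ : Subgroup P) = ⊤ :=
    ((S.mapSurjective hφ).is_maximal' hP2 le_top).symm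
  refine ⟨(S : Subgroup F).map F.subtype, (Subgroup.map_subtype_le _).trans hFH, ?_, ?_, ?_, ?_⟩
  · have : ((S : Subgroup F).map F.subtype) ≤ F := Subgroup.map_subtype_le _
    exact Finite.of_injective _ (Subgroup.inclusion_injective this)
  · exact (is2_iff_isPGroup.2 S.isPGroup').map _
  · intro a ha
    exact ⟨⟨a, hAF ha⟩, hS ha, rfl⟩
  · apply le_antisymm
    · rw [← hFP]
      exact Subgroup.map_mono (Subgroup.map_subtype_le _)
    · intro y hy
      have h2 : (⟨y, hy⟩ : P) ∈ (S.mapSurjective hφ : Subgroup P) := by rw [hT]; trivial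
      rw [Sylow.coe_mapSurjective] at h2
      obtain ⟨x, hx, hxy⟩ := h2
      exact ⟨x, ⟨x, hx, rfl⟩, congrArg Subtype.val hxy⟩

end locfin

section join

variable {G : Type*} [Group G]

/-- elements of a join lie in the join of finite subgroups -/
theorem exists_finite_join (hG : LocFin G) {P Q : Subgroup G} {x : G} (hx : x ∈ P ⊔ Q) :
    ∃ P' Q' : Subgroup G, P' ≤ P ∧ Q' ≤ Q ∧ Finite P' ∧ Finite Q' ∧ x ∈ P' ⊔ Q' := by
  rw [Subgroup.sup_eq_closure] at hx
  refine Subgroup.closure_induction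
    (p := fun x _ => ∃ P' Q' : Subgroup G, P' ≤ P ∧ Q' ≤ Q ∧ Finite P' ∧ Finite Q' ∧ x ∈ P' ⊔ Q')
    ?_ ?_ ?_ ?_ hx
  · intro x hx
    have hfin : Finite (Subgroup.zpowers x) := by
      refine hG _ ⟨{x}, by simp [Subgroup.zpowers_eq_closure]⟩
    rcases hx with hx | hx
    · exact ⟨Subgroup.zpowers x, ⊥, by simpa using hx, bot_le, hfin, inferInstance,
        Subgroup.mem_sup_left (Subgroup.mem_zpowers x)⟩
    · exact ⟨⊥, Subgroup.zpowers x, bot_le, by simpa using hx, inferInstance, hfin,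
        Subgroup.mem_sup_right (Subgroup.mem_zpowers x)⟩
  · exact ⟨⊥, ⊥, bot_le, bot_le, inferInstance, inferInstance, Subgroup.one_mem _⟩
  · intro x y _ _ hx hy
    obtain ⟨P₁, Q₁, h1, h2, h3, h4, h5⟩ := hx
    obtain ⟨P₂, Q₂, k1, k2, k3, k4, k5⟩ := hy
    refine ⟨P₁ ⊔ P₂, Q₁ ⊔ Q₂, sup_le h1 k1, sup_le h2 k2, finite_sup hG h3 k3,
      finite_sup hG h4 k4, Subgroup.mul_mem _ ?_ ?_⟩
    · exact (sup_le_sup le_sup_left le_sup_left : P₁ ⊔ Q₁ ≤ _) h5
    · exact (sup_le_sup le_sup_right le_sup_right : P₂ ⊔ Q₂ ≤ _) k5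
  · intro x _ hx
    obtain ⟨P₁, Q₁, h1, h2, h3, h4, h5⟩ := hx
    exact ⟨P₁, Q₁, h1, h2, h3, h4, Subgroup.inv_mem _ h5⟩

end join

section sparse

variable {G : Type*} {G' : Type*} [Group G] [Group G']

/-- Sparse passes to homomorphic images. -/
theorem sparse_surj (hG : LocFin G) (hS : Sparse G) (f : G →* G') (hf : Function.Surjective f) :
    Sparse G' := by
  intro H' hH'
  have hG' := locfin_surj hG f hf
  choose g hg using hf
  have hc : (g '' (H' : Set G')).Countable := (Set.countable_coe_iff.1 hH').image g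
  have hH : Countable (Subgroup.closure (g '' (H' : Set G'))) := countable_closure hc
  set H := Subgroup.closure (g '' (H' : Set G')) with hHdef
  have hmap : H.map f = H' := by
    rw [hHdef, MonoidHom.map_closure, Set.image_image]
    simp [hg]
  obtain ⟨A, hAH, hAf, hA2, hA⟩ := hS H hH
  have hAf' : Finite (A.map f) := Finite.of_surjective _ (f.subgroupMap_surjective A)
  have hAH' : A.map f ≤ H' := hmap ▸ Subgroup.map_mono hAH
  refine ⟨A.map f, hAH', hAf', hA2.map f, ?_⟩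
  intro P Q hPH hQH hP hQ hAP hAQ x hx
  obtain ⟨P', Q', h1, h2, h3, h4, h5⟩ := exists_finite_join hG' hx
  have k1 : P' ⊔ A.map f ≤ P := sup_le h1 hAP
  have k2 : Q' ⊔ A.map f ≤ Q := sup_le h2 hAQ
  obtain ⟨S, s1, s2, s3, s4, s5⟩ := exists_lift hG f H A (P' ⊔ A.map f) (finite_sup hG' h3 hAf')
    (hP.mono k1) (hmap ▸ k1.trans hPH) hAH hAf hA2 le_sup_right
  obtain ⟨T, t1, t2, t3, t4, t5⟩ := exists_lift hG f H A (Q' ⊔ A.map f) (finite_sup hG' h4 hAf')
    (hQ.mono k2) (hmap ▸ k2.trans hQH) hAH hAf hA2 le_sup_right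
  have h6 := (hA S T s1 t1 s3 t3 s4 t4).map f
  rw [Subgroup.map_sup, s5, t5] at h6
  exact h6 x ((sup_le_sup le_sup_left le_sup_left : P' ⊔ Q' ≤ _) h5)

end sparse

section radicals

variable {G : Type*} {G' : Type*} [Group G] [Group G']

/-- largest normal 2-subgroup -/
def rad2 (G : Type*) [Group G] : Subgroup G := sSup {N | N.Normal ∧ Is2 N}

/-- largest normal odd subgroup -/
def radO (G : Type*) [Group G] : Subgroup G := sSup {N | N.Normal ∧ IsO N}

theorem mem_rad2 {x : G} : x ∈ rad2 G ↔ ∃ N : Subgroup G, (N.Normal ∧ Is2 N) ∧ x ∈ N := by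
  rw [rad2, Subgroup.mem_sSup_of_directedOn]
  · rfl
  · exact ⟨⊥, inferInstance, Is2.bot⟩
  · rintro A ⟨hA, hA2⟩ B ⟨hB, hB2⟩
    exact ⟨A ⊔ B, ⟨inferInstance, hA2.sup_of_nrm hB2 Nrm.of_normal⟩, le_sup_left, le_sup_right⟩

theorem mem_radO {x : G} : x ∈ radO G ↔ ∃ N : Subgroup G, (N.Normal ∧ IsO N) ∧ x ∈ N := by
  rw [radO, Subgroup.mem_sSup_of_directedOn]
  · rfl
  · exact ⟨⊥, inferInstance, IsO.bot⟩
  · rintro A ⟨hA, hA2⟩ B ⟨hB, hB2⟩
    exact ⟨A ⊔ B, ⟨inferInstance, hA2.sup_of_nrm hB2 Nrm.of_normal⟩, le_sup_left, le_sup_right⟩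

theorem rad2_is2 : Is2 (rad2 G) := fun x hx => by
  obtain ⟨N, hN, hx⟩ := mem_rad2.1 hx
  exact hN.2 x hx

theorem radO_isO : IsO (radO G) := fun x hx => by
  obtain ⟨N, hN, hx⟩ := mem_radO.1 hx
  exact hN.2 x hx

theorem le_rad2 {N : Subgroup G} (h : N.Normal) (h2 : Is2 N) : N ≤ rad2 G := le_sSup ⟨h, h2⟩
theorem le_radO {N : Subgroup G} (h : N.Normal) (h2 : IsO N) : N ≤ radO G := le_sSup ⟨h, h2⟩

instance rad2_normal : (rad2 G).Normal := ⟨fun x hx g => by
  obtain ⟨N, hN, hx⟩ := mem_rad2.1 hx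
  exact mem_rad2.2 ⟨N, hN, hN.1.conj_mem x hx g⟩⟩

instance radO_normal : (radO G).Normal := ⟨fun x hx g => by
  obtain ⟨N, hN, hx⟩ := mem_radO.1 hx
  exact mem_radO.2 ⟨N, hN, hN.1.conj_mem x hx g⟩⟩

/-- elements of the preimage of `rad2` -/
theorem comap_rad2_pow (f : G →* G') {x : G} (hx : x ∈ (rad2 G').comap f) :
    ∃ k : ℕ, x ^ (2 ^ k : ℕ) ∈ f.ker := by
  obtain ⟨k, hk⟩ := rad2_is2 _ hx
  exact ⟨k, by rw [MonoidHom.mem_ker, map_pow, hk]⟩

theorem comap_radO_pow (f : G →* G') {x : G} (hx : x ∈ (radO G').comap f) :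
    ∃ m : ℕ, Odd m ∧ x ^ m ∈ f.ker := by
  obtain ⟨k, ho, hk⟩ := radO_isO _ hx
  exact ⟨k, ho, by rw [MonoidHom.mem_ker, map_pow, hk]⟩

theorem le_comap_rad2 {f : G →* G'} (hf : Function.Surjective f) {N : Subgroup G}
    (hN : N.Normal) (h : ∀ x ∈ N, ∃ k : ℕ, x ^ (2 ^ k : ℕ) ∈ f.ker) : N ≤ (rad2 G').comap f := by
  rw [← Subgroup.map_le_iff_le_comap]
  refine le_rad2 (hN.map f hf) ?_
  rintro _ ⟨x, hx, rfl⟩
  obtain ⟨k, hk⟩ := h x hx
  exact ⟨k, by rw [← map_pow]; exact hk⟩

theorem le_comap_radO {f : G →* G'} (hf : Function.Surjective f) {N : Subgroup G}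
    (hN : N.Normal) (h : ∀ x ∈ N, ∃ m : ℕ, Odd m ∧ x ^ m ∈ f.ker) : N ≤ (radO G').comap f := by
  rw [← Subgroup.map_le_iff_le_comap]
  refine le_radO (hN.map f hf) ?_
  rintro _ ⟨x, hx, rfl⟩
  obtain ⟨k, ho, hk⟩ := h x hx
  exact ⟨k, ho, by rw [← map_pow]; exact hk⟩

theorem char_comap_rad2 {f : G →* G'} (hf : Function.Surjective f)
    (hk : f.ker.Characteristic) : ((rad2 G').comap f).Characteristic := by
  rw [Subgroup.characteristic_iff_map_le] at hk ⊢
  intro φ
  refine le_comap_rad2 hf (Subgroup.Normal.map inferInstance _ φ.surjective) ?_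
  rintro _ ⟨x, hx, rfl⟩
  obtain ⟨k, h⟩ := comap_rad2_pow f hx
  exact ⟨k, hk φ ⟨_, h, by simp⟩⟩

theorem char_comap_radO {f : G →* G'} (hf : Function.Surjective f)
    (hk : f.ker.Characteristic) : ((radO G').comap f).Characteristic := by
  rw [Subgroup.characteristic_iff_map_le] at hk ⊢
  intro φ
  refine le_comap_radO hf (Subgroup.Normal.map inferInstance _ φ.surjective) ?_
  rintro _ ⟨x, hx, rfl⟩
  obtain ⟨k, ho, h⟩ := comap_radO_pow f hx
  exact ⟨k, ho, hk φ ⟨_, h, by simp⟩⟩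

theorem char_rad2 : (rad2 G).Characteristic := by
  rw [Subgroup.characteristic_iff_map_le]
  intro φ
  refine le_rad2 (Subgroup.Normal.map inferInstance _ φ.surjective) ?_
  exact rad2_is2.map _

/-- quotient by `rad2`: no normal 2-subgroups -/
theorem no_normal_2 {f : G →* G'} (hf : Function.Surjective f) (hk : f.ker = rad2 G)
    (Q : Subgroup G') (hQ : Q.Normal) (h2 : Is2 Q) : Q = ⊥ := by
  have h1 : Q.comap f ≤ rad2 G := by
    refine le_rad2 inferInstance ?_
    intro x hx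
    obtain ⟨k, h⟩ := h2 _ hx
    have : x ^ (2 ^ k : ℕ) ∈ rad2 G := by rw [← hk, MonoidHom.mem_ker, map_pow, h]
    exact E2.of_pow (rad2_is2 _ this)
  rw [eq_bot_iff]
  intro y hy
  obtain ⟨x, rfl⟩ := hf y
  have := h1 hy
  rw [← hk] at this
  exact this

theorem no_normal_O {f : G →* G'} (hf : Function.Surjective f) (hk : f.ker = radO G)
    (Q : Subgroup G') (hQ : Q.Normal) (h2 : IsO Q) : Q = ⊥ := by
  have h1 : Q.comap f ≤ radO G := by
    refine le_radO inferInstance ?_
    intro x hx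
    obtain ⟨k, ho, h⟩ := h2 _ hx
    have : x ^ k ∈ radO G := by rw [← hk, MonoidHom.mem_ker, map_pow, h]
    exact EO.of_pow ho (radO_isO _ this)
  rw [eq_bot_iff]
  intro y hy
  obtain ⟨x, rfl⟩ := hf y
  have := h1 hy
  rw [← hk] at this
  exact this

end radicals

end Pool.Agent.Helper91.SP
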