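import Pool.Agent.Helper91.SP.A

/-!
Packet 116 (MP_ecbc8a_al, S03471): the group is 2-soluble of bounded length, elementary abelian
sections, chain condition.
-/

set_option autoImplicit false

open Pool.Agent.Helper12.TwoLen

namespace Pool.Agent.Helper91.SP

section finitary

variable {G : Type*} [Group G]

theorem finitary_tau {Φ : Subgroup G → Subgroup G} (hm : Monotone Φ)
    (hf : ∀ H x, x ∈ Φ H → ∃ F : Subgroup G, F ≤ H ∧ F.FG ∧ x ∈ Φ F) :
    ∀ H x, x ∈ tau (Φ H) → ∃ F : Subgroup G, F ≤ H ∧ F.FG ∧ x ∈ tau (Φ F) := by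
  intro H x hx
  induction hx using Subgroup.closure_induction with
  | mem x hx =>
    obtain ⟨F, h1, h2, h3⟩ := hf H x hx.1
    exact ⟨F, h1, h2, mem_tau h3 hx.2⟩
  | one => exact ⟨⊥, bot_le, ⟨∅, by simp⟩, Subgroup.one_mem _⟩
  | mul x y _ _ hx hy =>
    obtain ⟨F, h1, h2, h3⟩ := hx
    obtain ⟨F', k1, k2, k3⟩ := hy
    exact ⟨F ⊔ F', sup_le h1 k1, h2.sup k2, Subgroup.mul_mem _ (tau_mono (hm le_sup_left) h3)
      (tau_mono (hm le_sup_right) k3)⟩
  | inv x _ hx =>
    obtain ⟨F, h1, h2, h3⟩ := hx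
    exact ⟨F, h1, h2, Subgroup.inv_mem _ h3⟩

theorem finitary_opi {Φ : Subgroup G → Subgroup G} (hm : Monotone Φ)
    (hf : ∀ H x, x ∈ Φ H → ∃ F : Subgroup G, F ≤ H ∧ F.FG ∧ x ∈ Φ F) :
    ∀ H x, x ∈ opi (Φ H) → ∃ F : Subgroup G, F ≤ H ∧ F.FG ∧ x ∈ opi (Φ F) := by
  intro H x hx
  induction hx using Subgroup.closure_induction with
  | mem x hx =>
    obtain ⟨F, h1, h2, h3⟩ := hf H x hx.1
    exact ⟨F, h1, h2, mem_opi h3 hx.2⟩
  | one => exact ⟨⊥, bot_le, ⟨∅, by simp⟩, Subgroup.one_mem _⟩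
  | mul x y _ _ hx hy =>
    obtain ⟨F, h1, h2, h3⟩ := hx
    obtain ⟨F', k1, k2, k3⟩ := hy
    exact ⟨F ⊔ F', sup_le h1 k1, h2.sup k2, Subgroup.mul_mem _ (opi_mono (hm le_sup_left) h3)
      (opi_mono (hm le_sup_right) k3)⟩
  | inv x _ hx =>
    obtain ⟨F, h1, h2, h3⟩ := hx
    exact ⟨F, h1, h2, Subgroup.inv_mem _ h3⟩

theorem mono_rt (n : ℕ) : Monotone (fun H : Subgroup G => rho^[n] (tau H)) :=
  fun _ _ h => rhoIter_mono n (tau_mono h)

theorem finitary_rt (n : ℕ) : ∀ (H : Subgroup G) (x : G), x ∈ rho^[n] (tau H) →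
    ∃ F : Subgroup G, F ≤ H ∧ F.FG ∧ x ∈ rho^[n] (tau F) := by
  induction n with
  | zero =>
    intro H x hx
    refine finitary_tau (Φ := id) monotone_id ?_ H x hx
    intro H x hx
    exact ⟨Subgroup.zpowers x, by simpa using hx, ⟨{x}, by simp [Subgroup.zpowers_eq_closure]⟩,
      Subgroup.mem_zpowers x⟩
  | succ n ih =>
    have h1 := finitary_opi (mono_rt n) ih
    have h2 := finitary_tau (Φ := fun H : Subgroup G => opi (rho^[n] (tau H)))
      (fun _ _ h => opi_mono (mono_rt n h)) h1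
    intro H x hx
    rw [Function.iterate_succ_apply'] at hx
    obtain ⟨F, k1, k2, k3⟩ := h2 H x hx
    refine ⟨F, k1, k2, ?_⟩
    rw [Function.iterate_succ_apply']
    exact k3

end finitary

section bounded

/-- each countable subgroup has bounded length -/
theorem countable_bounded (hBd : Bound) {K : Type} [Group K] (hK : LocFin K) (hS : Sparse K)
    (hs : ∀ F : Subgroup K, F.FG → ∃ m, rho^[m] F = ⊥) (H : Subgroup K) (hH : Countable H) :
    ∃ n, rho^[n] (tau H) = ⊥ := by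
  obtain ⟨A, hAH, hAf, hA2, hA⟩ := hS H hH
  obtain ⟨n, hn⟩ := hBd (Nat.card A)
  refine ⟨n, ?_⟩
  rw [eq_bot_iff]
  intro x hx
  obtain ⟨F₀, h1, h2, h3⟩ := finitary_rt n H x hx
  set F : Subgroup K := F₀ ⊔ A with hFdef
  have hF : F.FG := h2.sup (fg_of_finite A)
  have hFH : F ≤ H := sup_le h1 hAH
  have hFf : Finite F := hK F hF
  have hx' : x ∈ rho^[n] (tau F) := mono_rt n (le_sup_left : F₀ ≤ F) h3
  obtain ⟨m, hm⟩ := hs F hF
  have htop : (⊤ : Subgroup F).map F.subtype = F := by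
    rw [← MonoidHom.range_eq_map, Subgroup.range_subtype]
  have hm' : rho^[m] (⊤ : Subgroup F) = ⊥ := by
    have h4 := map_rhoIter_of_injective F.subtype F.subtype_injective m ⊤
    rw [htop, hm] at h4
    exact (Subgroup.map_eq_bot_iff_of_injective _ F.subtype_injective).1 h4
  have hAF : A ≤ F := le_sup_right
  have hcard : Nat.card (A.subgroupOf F) ≤ 2 ^ Nat.card A := by
    rw [Nat.card_congr (Subgroup.subgroupOfEquivOfLe hAF).toEquiv]
    exact Nat.lt_two_pow_self.le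
  have h2' : Is2 (A.subgroupOf F) := fun y hy => E2_of_inj F.subtype_injective (hA2 _ hy)
  have h5 := hn F ⟨m, hm'⟩ (A.subgroupOf F) h2' hcard (by
    intro P Q hP hQ hAP hAQ
    apply Is2_of_map_inj F.subtype_injective
    rw [Subgroup.map_sup]
    refine hA _ _ ((Subgroup.map_subtype_le _).trans hFH) ((Subgroup.map_subtype_le _).trans hFH)
      (hP.map _) (hQ.map _) ?_ ?_
    · intro a ha
      exact ⟨⟨a, hAF ha⟩, hAP ha, rfl⟩
    · intro a ha
      exact ⟨⟨a, hAF ha⟩, hAQ ha, rfl⟩)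
  have h6 := map_rhoIter_of_injective F.subtype F.subtype_injective n (tau ⊤)
  rw [h5, map_tau_of_injective _ F.subtype_injective, htop, Subgroup.map_bot] at h6
  rw [← h6] at hx'
  exact hx'

theorem exists_rho (hBd : Bound) {K : Type} [Group K] (hK : LocFin K) (hS : Sparse K)
    (hs : ∀ F : Subgroup K, F.FG → ∃ m, rho^[m] F = ⊥) :
    ∃ m, rho^[m] (⊤ : Subgroup K) = ⊥ := by
  by_cases hall : ∃ n, rho^[n] (tau (⊤ : Subgroup K)) = ⊥
  · obtain ⟨n, hn⟩ := hall
    refine ⟨n + 1, ?_⟩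
    rw [eq_bot_iff, ← hn, Function.iterate_succ_apply]
    exact rhoIter_mono n (tau_mono (opi_le _))
  · exfalso
    push Not at hall
    have h1 : ∀ n, ∃ x ∈ rho^[n] (tau (⊤ : Subgroup K)), x ≠ 1 := fun n => by
      by_contra hcon
      push Not at hcon
      exact hall n ((Subgroup.eq_bot_iff_forall _).2 hcon)
    choose x hx hx1 using h1
    have h2 := fun n => finitary_rt n ⊤ (x n) (hx n)
    choose F hF1 hF2 hF3 using h2
    have hFf : ∀ n, Finite (F n) := fun n => hK _ (hF2 n)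
    have hc : (⋃ n, (F n : Set K)).Countable := Set.countable_iUnion fun n =>
      (Set.toFinite (F n : Set K)).countable
    obtain ⟨n, hn⟩ := countable_bounded hBd hK hS hs _ (countable_closure hc)
    have h3 : F n ≤ Subgroup.closure (⋃ n, (F n : Set K)) := fun y hy =>
      Subgroup.subset_closure (Set.mem_iUnion.2 ⟨n, hy⟩)
    have h4 := mono_rt n h3 (hF3 n)
    simp only [hn, Subgroup.mem_bot] at h4
    exact hx1 n h4

end bounded

section good

/-- `H` has a finite good 2-subgroup. -/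
def SG (H : Type*) [Group H] : Prop := ∃ A : Subgroup H, Finite A ∧ Is2 A ∧
  ∀ P Q : Subgroup H, Is2 P → Is2 Q → A ≤ P → A ≤ Q → Is2 (P ⊔ Q)

theorem sg_equiv {H H' : Type*} [Group H] [Group H'] (e : H ≃* H') (h : SG H) : SG H' := by
  obtain ⟨A, hAf, hA2, hA⟩ := h
  refine ⟨A.map e.toMonoidHom, Finite.of_surjective _ (e.toMonoidHom.subgroupMap_surjective A),
    hA2.map _, ?_⟩
  intro P Q hP hQ hAP hAQ
  have h1 := hA (P.map e.symm.toMonoidHom) (Q.map e.symm.toMonoidHom) (hP.map _) (hQ.map _) ?_ ?_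
  · rw [← Subgroup.map_sup] at h1
    exact Is2_of_map_inj e.symm.injective h1
  · intro a ha
    exact ⟨e a, hAP ⟨a, ha, rfl⟩, by simp⟩
  · intro a ha
    exact ⟨e a, hAQ ⟨a, ha, rfl⟩, by simp⟩

theorem sparse_of_sg {K : Type*} [Group K] (h : ∀ H : Subgroup K, Countable H → SG H) :
    Sparse K := by
  intro H hH
  obtain ⟨A, hAf, hA2, hA⟩ := h H hH
  refine ⟨A.map H.subtype, Subgroup.map_subtype_le _,
    Finite.of_surjective _ (H.subtype.subgroupMap_surjective A), hA2.map _, ?_⟩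
  intro P Q hPH hQH hP hQ hAP hAQ
  have h2P : Is2 (P.subgroupOf H) := fun y hy => E2_of_inj H.subtype_injective (hP _ hy)
  have h2Q : Is2 (Q.subgroupOf H) := fun y hy => E2_of_inj H.subtype_injective (hQ _ hy)
  have h1 := (hA (P.subgroupOf H) (Q.subgroupOf H) h2P h2Q
    (fun a ha => hAP ⟨a, ha, rfl⟩) (fun a ha => hAQ ⟨a, ha, rfl⟩)).map H.subtype
  rw [Subgroup.map_sup, Subgroup.map_subgroupOf_eq_of_le hPH,
    Subgroup.map_subgroupOf_eq_of_le hQH] at h1
  exact h1

theorem sparse_sub (hEG : ExistsGood) {G : Type} [Group G] (hG : LocFin G) (K K₀ : Subgroup G)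
    (hKK : K₀ ≤ K)
    (h : ∀ H : Subgroup G, H ≤ K → Countable H → Cardinal.mk (Sylow 2 H) < Cardinal.continuum) :
    Sparse K₀ := by
  apply sparse_of_sg
  intro H hH
  have h1 : H.map K₀.subtype ≤ K := (Subgroup.map_subtype_le _).trans hKK
  have e : H ≃* H.map K₀.subtype := H.equivMapOfInjective K₀.subtype K₀.subtype_injective
  have h2 : Countable (H.map K₀.subtype) := e.surjective.countable
  exact sg_equiv e.symm (hEG _ (locfin_subgroup hG _) (h _ h1 h2))

end good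

section elementary

variable {G : Type*} {G' : Type*} [Group G] [Group G']

/-- exponent 2 subgroups stay finite modulo an odd kernel -/
theorem elementary_quot (hG : LocFin G) (f : G →* G') (hf : Function.Surjective f)
    (hker : IsO f.ker) (hE : ∀ E : Subgroup G, (∀ x ∈ E, x * x = 1) → Finite E)
    (E : Subgroup G') (hE2 : ∀ x ∈ E, x * x = 1) : Finite E := by
  have hG' := locfin_surj hG f hf
  have hEis2 : Is2 E := fun x hx => ⟨1, by rw [pow_one, pow_two]; exact hE2 x hx⟩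
  obtain ⟨M, -, hM⟩ := zorn_le_nonempty₀
    {E' : Subgroup G | (∀ x ∈ E', x * x = 1) ∧ E'.map f ≤ E} (by
      intro c hc hchain y hy
      refine ⟨sSup c, ⟨?_, ?_⟩, fun z hz => le_sSup hz⟩
      · intro x hx
        rw [Subgroup.mem_sSup_of_directedOn ⟨y, hy⟩ hchain.directedOn] at hx
        obtain ⟨s, hs, hx⟩ := hx
        exact (hc hs).1 x hx
      · rw [Subgroup.map_le_iff_le_comap]
        refine sSup_le fun s hs => ?_
        rw [← Subgroup.map_le_iff_le_comap]
        exact (hc hs).2) ⊥ ⟨by simp, by simp⟩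
  have hMp := hM.prop
  have hMf : Finite M := hE M hMp.1
  have hMap : Finite (M.map f) := Finite.of_surjective _ (f.subgroupMap_surjective M)
  suffices h : M.map f = E by rw [← h]; exact hMap
  apply le_antisymm hMp.2
  intro e he
  have hzf : Finite (Subgroup.zpowers e) :=
    hG' _ ⟨{e}, by simp [Subgroup.zpowers_eq_closure]⟩
  have hPE : M.map f ⊔ Subgroup.zpowers e ≤ E := sup_le hMp.2 (by simpa using he)
  obtain ⟨S, s1, s2, s3, s4, s5⟩ := exists_lift hG f ⊤ M (M.map f ⊔ Subgroup.zpowers e)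
    (finite_sup hG' hMap hzf) (hEis2.mono hPE)
    (by rw [← MonoidHom.range_eq_map, MonoidHom.range_eq_top.2 hf]; exact le_top) le_top hMf
    (fun x hx => ⟨1, by rw [pow_one, pow_two]; exact hMp.1 x hx⟩) le_sup_left
  have hSE : S.map f ≤ E := by rw [s5]; exact hPE
  have hS : S ∈ {E' : Subgroup G | (∀ x ∈ E', x * x = 1) ∧ E'.map f ≤ E} := by
    refine ⟨?_, hSE⟩
    intro x hx
    have h1 : x * x ∈ f.ker := by
      rw [MonoidHom.mem_ker, map_mul]
      exact hE2 _ (hSE ⟨x, hx, rfl⟩)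
    exact eq_one_of_E2_EO (s3 _ (S.mul_mem hx hx)) (hker _ h1)
  have h2 : S ≤ M := hM.2 hS s4
  have h3 : e ∈ S.map f := by
    rw [s5]
    exact Subgroup.mem_sup_right (Subgroup.mem_zpowers e)
  exact Subgroup.map_mono h2 h3

end elementary

section dcc

/-- antitone sequences in a finite order are eventually constant -/
theorem antitone_stab {α : Type*} [PartialOrder α] [Finite α] (a : ℕ → α) (ha : Antitone a) :
    ∃ N, ∀ n ≥ N, a n = a N := by
  have hw : WellFoundedGT αᵒᵈ := Finite.to_wellFoundedGT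
  let b : ℕ →o αᵒᵈ := ⟨fun n => OrderDual.toDual (a n), fun i j h => ha h⟩
  obtain ⟨N, hN⟩ := wellFoundedGT_iff_monotone_chain_condition.1 hw b
  exact ⟨N, fun n hn => (hN n hn).symm⟩

theorem eq_of_inf_map {G : Type*} [Group G] (K H H' : Subgroup G) [K.Normal] (h : H' ≤ H)
    (h1 : H' ⊓ K = H ⊓ K) (h2 : H'.map (QuotientGroup.mk' K) = H.map (QuotientGroup.mk' K)) :
    H' = H := by
  apply le_antisymm h
  intro x hx
  have : QuotientGroup.mk' K x ∈ H'.map (QuotientGroup.mk' K) := by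
    rw [h2]; exact ⟨x, hx, rfl⟩
  obtain ⟨y, hy, hxy⟩ := this
  have h3 : y⁻¹ * x ∈ K := by
    rw [← QuotientGroup.eq]
    exact hxy
  have h4 : y⁻¹ * x ∈ H ⊓ K := ⟨H.mul_mem (H.inv_mem (h hy)) hx, h3⟩
  rw [← h1] at h4
  have := H'.mul_mem hy h4.1
  simpa using this

end dcc

end Pool.Agent.Helper91.SP
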